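import Pool.Agent.MP_3ee8cb_gt.D8.Spec
import Pool.Agent.MP_3ee8cb_gt.NS.RIBP
import Pool.Agent.MP_3ee8cb_gt.DRB.Mom

/-! The odd absolute moments in dimension eight. -/

namespace Pool.Agent.MP_3ee8cb_gt.D8

open Set Filter Topology MeasureTheory Real
open scoped RealInnerProductSpace
open DN (Dim dm)

namespace RMOM

theorem dabs (t : ℝ) : HasDerivAt (fun t : ℝ => t * |t|) (2 * |t|) t := by
  rcases lt_trichotomy t 0 with h | rfl | h
  · refine ((hasDerivAt_id' t).mul (hasDerivAt_abs_neg h)).congr_deriv ?_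
    rw [abs_of_neg h]
    ring
  · rw [hasDerivAt_iff_tendsto_slope_zero, abs_zero, mul_zero, mul_zero]
    have k : Tendsto (fun t : ℝ => |t|) (𝓝[≠] 0) (𝓝 0) := by
      have := (continuous_abs.tendsto (0 : ℝ)).mono_left (nhdsWithin_le_nhds (s := {0}ᶜ))
      rwa [abs_zero] at this
    refine k.congr' ?_
    filter_upwards [self_mem_nhdsWithin] with t (ht : t ≠ 0)
    rw [zero_add, sub_zero, smul_eq_mul, inv_mul_cancel_left₀ ht]
  · refine ((hasDerivAt_id' t).mul (hasDerivAt_abs_pos h)).congr_deriv ?_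
    rw [abs_of_pos h]
    ring

variable [Dim]

open DN DZ NS

theorem dun {w a : V} (hw : w ≠ 0) (h : ⟪w, a⟫ = 0) :
    ∃ D : V →L[ℝ] V, HasFDerivAt un D w ∧ D (‖w‖ • a) = a := by
  have n0 : ‖w‖ ≠ 0 := norm_ne_zero_iff.2 hw
  have h1 := (hasStrictFDerivAt_norm_sq w).hasFDerivAt.sqrt (pow_ne_zero 2 n0)
  simp only [sqrt_sq (norm_nonneg _)] at h1
  refine ⟨_, ((hasDerivAt_inv n0).comp_hasFDerivAt w h1).smul (hasFDerivAt_id w), ?_⟩
  simp [h, smul_smul, n0]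

theorem alg (h8 : dm = 8) : Alg 0 0 where
  d0 := le_rfl
  d1 := by rw [h8]; norm_num
  sk := by simp
  ps := by simp
  pos := by simp
  trc := fun w => by
    have : Pw 0 w = 0 := by
      ext
      simp [Pw]
    simp [this, tr]

/-- Integration by parts for a function of one coordinate. -/
theorem ibp (ms : MS) (h8 : dm = 8) {ψ χ : ℝ → ℝ} (hψ : ∀ t, HasDerivAt ψ (χ t) t)
    (hχ : Continuous χ) {e : V} (he : ‖e‖ = 1) :
    ∫ w, χ ⟪un w, e⟫ * (1 - ⟪un w, e⟫ ^ 2) ∂mS = 7 * ∫ w, ψ ⟪un w, e⟫ * ⟪un w, e⟫ ∂mS := by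
  have c1 : ContDiff ℝ 1 ψ := contDiff_one_iff_deriv.2 ⟨fun t => (hψ t).differentiableAt, by
    rwa [show deriv ψ = χ from funext fun t => (hψ t).deriv]⟩
  have c2 : ContDiff ℝ 1 fun v : V => ψ ⟪v, e⟫ := c1.comp (contDiff_id.inner ℝ contDiff_const)
  obtain ⟨K, hK⟩ := (c2.locallyLipschitz.locallyLipschitzOn (s := {w | ‖w‖ = 1})
    ).exists_lipschitzOnWith_of_compact RIBP.sph
  have k := ((sIBP _ K 0 0 ms hK (alg h8)).2 e).2
  rw [show ((dm : ℝ) + 0 - 1) = 7 by rw [h8]; norm_num] at k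
  refine Eq.trans (integral_congr_ae ?_) k
  filter_upwards [ms.mem] with w hw
  have w0 := RIBP.sh_ne hw
  have n1 := RIBP.un_norm w0
  have h0 : H0 0 (un w) e = e - ⟪un w, e⟫ • un w := by simp [H0]
  have h1 : ⟪w, e - ⟪un w, e⟫ • un w⟫ = 0 := by
    nth_rewrite 1 [← RIBP.smul_un w0]
    rw [real_inner_smul_left, inner_sub_right, real_inner_smul_right,
      real_inner_self_eq_norm_sq, n1]
    ring
  obtain ⟨D, hD, hDa⟩ := dun w0 h1
  have h2 : HasFDerivAt (fun v => ⟪un v, e⟫) ((innerSL ℝ e).comp D) w := by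
    simp only [real_inner_comm e]
    exact (innerSL ℝ e).hasFDerivAt.comp w hD
  have h3 := ((hψ ⟪un w, e⟫).comp_hasFDerivAt w h2).fderiv
  rw [sd, h0]
  refine Eq.trans ?_ (congrArg (· (‖w‖ • (e - ⟪un w, e⟫ • un w))) h3).symm
  rw [smul_apply, ContinuousLinearMap.comp_apply, hDa, innerSL_apply_apply,
    inner_sub_right, real_inner_smul_right, real_inner_self_eq_norm_sq, he, smul_eq_mul,
    real_inner_comm (un w) e]
  ring

end RMOM

variable [Dim]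

open DN DZ NS

theorem sMOM : SMOM := by
  intro ms h8 e he
  have hd : ∀ t : ℝ, HasDerivAt
      (fun t : ℝ => t * |t| * (-(2047 / 12870) - 238 / 715 * t ^ 2 + 11 / 26 * t ^ 4))
      (|t| * (-(2047 / 6435) - 952 / 715 * t ^ 2 + 33 / 13 * t ^ 4)) t := fun t => by
    refine ((RMOM.dabs t).mul ((((hasDerivAt_pow 2 t).const_mul (238 / 715)).const_sub
      (-(2047 / 12870))).add ((hasDerivAt_pow 4 t).const_mul (11 / 26)))).congr_deriv ?_
    simp only [Pi.add_apply]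
    norm_num
    ring
  have k := RMOM.ibp ms h8 hd (by fun_prop) he
  have i1 : Integrable (fun w : V => |⟪un w, e⟫| * (-(2047 / 6435) - 952 / 715 * ⟪un w, e⟫ ^ 2 +
      33 / 13 * ⟪un w, e⟫ ^ 4) * (1 - ⟪un w, e⟫ ^ 2)) mS :=
    RIBP.intc ms (h := fun u => |⟪u, e⟫| * (-(2047 / 6435) - 952 / 715 * ⟪u, e⟫ ^ 2 +
      33 / 13 * ⟪u, e⟫ ^ 4) * (1 - ⟪u, e⟫ ^ 2)) (Continuous.continuousOn (by fun_prop))
  have i2 : Integrable (fun w : V => ⟪un w, e⟫ * |⟪un w, e⟫| * (-(2047 / 12870) -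
      238 / 715 * ⟪un w, e⟫ ^ 2 + 11 / 26 * ⟪un w, e⟫ ^ 4) * ⟪un w, e⟫) mS :=
    RIBP.intc ms (h := fun u => ⟪u, e⟫ * |⟪u, e⟫| * (-(2047 / 12870) -
      238 / 715 * ⟪u, e⟫ ^ 2 + 11 / 26 * ⟪u, e⟫ ^ 4) * ⟪u, e⟫)
      (Continuous.continuousOn (by fun_prop))
  have m1 := DRB.mom1 ms he
  have e1 : ∀ x : ℝ, qq |x| * |x| = (|x| * (-(2047 / 6435) - 952 / 715 * x ^ 2 +
      33 / 13 * x ^ 4) * (1 - x ^ 2) - 7 * (x * |x| * (-(2047 / 12870) - 238 / 715 * x ^ 2 +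
      11 / 26 * x ^ 4) * x)) + (2047 / 6435 - 61 / 200) * |x| := fun x => by
    rw [qq, sq_abs, show |x| ^ 4 = (|x| ^ 2) ^ 2 by ring, show |x| ^ 6 = (|x| ^ 2) ^ 3 by ring,
      sq_abs]
    ring
  simp only [e1]
  rw [integral_add (i1.sub' (i2.const_mul 7)) ((DRB.int1 ms e).const_mul _),
    integral_sub i1 (i2.const_mul 7), integral_const_mul, integral_const_mul, k]
  linarith

end Pool.Agent.MP_3ee8cb_gt.D8
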