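import Pool.Agent.MP_3ee8cb_gt.D8.Spec
import Pool.Agent.MP_3ee8cb_gt.D8C.Run

/-! The inequality behind the inward direction. -/

namespace Pool.Agent.MP_3ee8cb_gt.D8

open Real D8C

namespace NUM2x

/-- The clamped distance to one. -/
noncomputable def cl (t : ℝ) : ℝ := max 0 (min (1 - t) (14 / 25))

/-- The slope. -/
noncomputable def sp (u : ℝ) : ℝ := 93 / 100 + 7 / 5 * u + 7 / 4 * u ^ 2

/-- The profile, extended by its tangent line. -/
noncomputable def pe (t : ℝ) : ℝ := -(93 / 100 * cl t + 7 / 10 * cl t ^ 2 + 7 / 12 * cl t ^ 3 +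
  sp (cl t) * (1 - t - cl t))

theorem cl0 (t : ℝ) : 0 ≤ cl t := le_max_left _ _

theorem cl1 (t : ℝ) : cl t ≤ 14 / 25 := max_le (by norm_num) (min_le_right _ _)

theorem cl2 (t : ℝ) : cl t = 1 - t ∨ (cl t = 0 ∧ 1 - t ≤ 0) ∨
    (cl t = 14 / 25 ∧ 14 / 25 ≤ 1 - t) := by
  unfold cl
  rcases le_total (1 - t) (14 / 25) with h | h
  · rw [min_eq_left h]
    rcases le_total 0 (1 - t) with k | k
    · exact .inl (max_eq_right k)
    · exact .inr (.inl ⟨max_eq_left k, k⟩)
  · rw [min_eq_right h]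
    exact .inr (.inr ⟨max_eq_right (by norm_num), h⟩)

theorem spm {u v : ℝ} (h0 : 0 ≤ u) (h : u ≤ v) : sp u ≤ sp v := by
  unfold sp
  nlinarith

theorem sup (t r : ℝ) : pe r ≤ pe t + sp (cl t) * (r - t) := by
  have a : 0 ≤ (sp (cl r) - sp (cl t)) * (1 - r - cl r) := by
    rcases cl2 r with h | ⟨h, k⟩ | ⟨h, k⟩
    · rw [← h, sub_self, mul_zero]
    · exact mul_nonneg_of_nonpos_of_nonpos (sub_nonpos.2 (spm (cl0 r) (h ▸ cl0 t))) (by linarith)
    · exact mul_nonneg (sub_nonneg.2 (spm (cl0 t) (h ▸ cl1 t))) (by linarith)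
  have b : 0 ≤ (cl r - cl t) ^ 2 * (7 / 10 + 7 / 12 * (cl r + 2 * cl t)) :=
    mul_nonneg (sq_nonneg _) (by linarith [cl0 r, cl0 t])
  unfold pe
  generalize cl r = u at a b
  generalize cl t = v at a b
  unfold sp at *
  nlinarith

theorem mono : Monotone pe := fun r t h => by
  have a := sup t r
  have b : 0 ≤ sp (cl t) := by
    have := cl0 t
    unfold sp
    positivity
  nlinarith [mul_nonneg b (sub_nonneg.2 h)]

theorem conc (a b c : ℝ) (h : a ≤ b) (c0 : 0 ≤ c) : pe (b + c) - pe b ≤ pe (a + c) - pe a := by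
  rcases c0.eq_or_lt with rfl | c1
  · simp
  have d := sub_nonneg.2 h
  have k1 := mul_le_mul_of_nonneg_left (sup b a) c0
  have k2 := mul_le_mul_of_nonneg_left (sup b (b + c)) d
  have k3 := mul_le_mul_of_nonneg_left (sup (a + c) a) d
  have k4 := mul_le_mul_of_nonneg_left (sup (a + c) (b + c)) c0
  refine le_of_mul_le_mul_left ?_ (show 0 < b - a + c by linarith)
  linarith

theorem eq {t : ℝ} (h : t ≤ 1) : pe t = ph t := by
  have e : cl t = mu t := max_eq_right (le_min (by linarith) (by norm_num))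
  unfold ph pe
  rw [← e]
  rcases cl2 t with k | ⟨k, l⟩ | ⟨k, -⟩
  · rw [← k]
    ring
  · rw [k, show t = 1 by linarith]
    ring
  · rw [k, sp]
    ring

theorem hf (a : ℤ) : (ff a : ℝ) = (78643200000000 : ℤ) * pe (a / (6400 : ℤ)) := by
  have e : ((max 0 (min (6400 - a) 3584) : ℤ) : ℝ) = 6400 * cl (a / (6400 : ℤ)) := by
    unfold cl
    rw [mul_max_of_nonneg _ _ (by norm_num), mul_min_of_nonneg _ _ (by norm_num)]
    push_cast
    congr 2 <;> ring
  unfold ff fa pe sp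
  generalize max 0 (min (6400 - a) 3584) = u at e ⊢
  generalize cl _ = c at e ⊢
  push_cast
  rw [e]
  ring

theorem hg (a : ℤ) (x : ℝ) (x0 : 0 ≤ x) (x1 : x ≤ a / (6400 : ℤ)) :
    (78643200000000 : ℤ) * qq x ≤ gg a := by
  unfold gg qq
  split_ifs with h
  · have k := fl (-(-183 * 6400 ^ 6 + a ^ 2 * (60 * 6400 ^ 4 +
      a ^ 2 * (3720 * 6400 ^ 2 - 3300 * a ^ 2)))) (b := 2 * 6400 ^ 3) (by norm_num)
    have h' : (a : ℝ) ≤ 5540 := by exact_mod_cast h
    rw [Int.cast_neg]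
    refine le_trans ?_ (neg_le_neg k)
    push_cast at x1 ⊢
    obtain ⟨r, hr⟩ : ∃ r : ℝ, (a : ℝ) = 6400 * r := ⟨a / 6400, by ring⟩
    rw [hr] at x1 h' ⊢
    have y1 : x ^ 2 ≤ r ^ 2 := pow_le_pow_left₀ x0 (by linarith) 2
    have y2 : r ^ 2 ≤ 3 / 4 := by nlinarith
    have y0 := sq_nonneg x
    have e : ∀ y z : ℝ, 0 ≤ y → y ≤ z → z ≤ 3 / 4 → 31 / 5 * y ^ 2 - 11 / 2 * y ^ 3 ≤
        31 / 5 * z ^ 2 - 11 / 2 * z ^ 3 := fun y z a b c => by
      have : 0 ≤ 31 / 5 * (z + y) - 11 / 2 * (z ^ 2 + z * y + y ^ 2) := by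
        nlinarith [mul_nonneg (sub_nonneg.2 b) (show 0 ≤ z + 2 * y by linarith),
          mul_nonneg (sub_nonneg.2 c) (show 0 ≤ z + y by linarith)]
      nlinarith [mul_nonneg (sub_nonneg.2 b) this]
    have := e _ _ y0 y1 y2
    linarith
  · push_cast
    have y0 := sq_nonneg x
    have e : ∀ y : ℝ, 0 ≤ y → 1 / 10 * y + 31 / 5 * y ^ 2 - 11 / 2 * y ^ 3 ≤ 249 / 200 :=
      fun y a => by nlinarith [mul_nonneg a (sq_nonneg (y - 19 / 25)), sq_nonneg (y - 19 / 25)]
    have := e _ y0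
    linarith

theorem dat : Dat pe qq (381 / 200) ff gg 6400 78643200000000 381 200 :=
  ⟨by norm_num, by norm_num, by norm_num, by norm_num, by norm_num, mono, conc, hf, hg⟩

theorem pt {x S : ℝ} (x0 : 0 ≤ x) (x1 : x ≤ 1) (hS : S ^ 2 ≤ 1) : Pt pe qq (381 / 200) x S := by
  obtain ⟨s0, s1⟩ := abs_le.1 ((sq_le_one_iff_abs_le_one S).1 hS)
  have k : ∀ a b : ℤ, chk ff gg 6400 78643200000000 381 200 24 a b (-6400) 6400 = true → 0 ≤ a →
      a ≤ b → (a : ℝ) / 6400 ≤ x → x ≤ b / 6400 → Pt pe qq (381 / 200) x S :=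
    fun a b h c d e f => chk_ok dat 24 a b _ _ h c d x S (by simpa using e) (by simpa using f)
      (by push_cast; linarith) (by push_cast; linarith) x1 hS
  rcases le_total x (1 / 2) with h | h
  · rcases le_total x (1 / 4) with l | l
    · exact k _ _ run1 (by norm_num) (by norm_num) (by push_cast; linarith) (by push_cast; linarith)
    · exact k _ _ run2 (by norm_num) (by norm_num) (by push_cast; linarith) (by push_cast; linarith)
  · rcases le_total x (3 / 4) with l | l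
    · exact k _ _ run3 (by norm_num) (by norm_num) (by push_cast; linarith) (by push_cast; linarith)
    · exact k _ _ run4 (by norm_num) (by norm_num) (by push_cast; linarith) (by push_cast; linarith)

end NUM2x

open NUM2x

theorem sNUM2 : SNUM2 := by
  intro x S B G x0 x1 hS hB hG
  have c : ∀ T : ℝ, T ^ 2 = S ^ 2 → B + T * x ≤ 1 := fun T hT => by
    rw [← hT] at hB
    by_contra k
    have k1 : 0 ≤ 1 - T * x := by nlinarith [sq_nonneg (T - x)]
    nlinarith [sq_nonneg (T - x), pow_lt_pow_left₀ (show 1 - T * x < B by linarith) k1 two_ne_zero]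
  have c1 := c S rfl
  have c2 : B - S * x ≤ 1 := by linarith [c (-S) (by ring)]
  have k := pt x0.le x1 hS B (max (G + ph x) (ph (B + S * x))) hB
    (by rw [eq c1]; exact le_max_right _ _) fun s1 => by
      have l := log_le_log (mul_pos (by norm_num) (sub_pos.2 s1))
        (show 381 / 200 * (1 - S) ≤ exp G by linarith)
      rw [log_exp] at l
      rw [eq x1]
      exact le_trans (by linarith) (le_max_left _ _)
  rw [eq c2] at k
  linarith

end Pool.Agent.MP_3ee8cb_gt.D8
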