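import Pool.Agent.MP_3ee8cb_gt.D8.Spec

/-! The explicit profile is admissible. -/

namespace Pool.Agent.MP_3ee8cb_gt.D8

open Set Filter Topology

namespace RPR

lemma up {t : ℝ} (h : 11 / 25 ≤ t) : mu t = 1 - t := min_eq_left (by linarith)

lemma dn {t : ℝ} (h : t ≤ 11 / 25) : mu t = 14 / 25 := min_eq_right (by linarith)

lemma dP (t : ℝ) (h : 11 / 25 ≤ t) : HasDerivWithinAt ph (sl t) (Ici (11 / 25)) t := by
  have a : HasDerivAt (fun t : ℝ => 1 - t) (-1) t := (hasDerivAt_id t).const_sub 1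
  have b := (((a.const_mul (93 / 100)).add ((a.pow 2).const_mul (7 / 10))).add
    ((a.pow 3).const_mul (7 / 12))).neg
  refine (b.hasDerivWithinAt.congr_deriv ?_).congr (fun y hy => ?_) ?_
  · rw [sl, up h]
    norm_num
    ring
  · simp [ph, up hy]
  · simp [ph, up h]

lemma dQ (t : ℝ) (h : t ≤ 11 / 25) : HasDerivWithinAt ph (sl t) (Iic (11 / 25)) t := by
  have a : HasDerivAt (fun t : ℝ => 1 - t - 14 / 25) (-1) t :=
    ((hasDerivAt_id t).const_sub 1).sub_const _
  have b := (a.const_mul (5657 / 2500)).const_sub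
    (-(93 / 100 * (14 / 25) + 7 / 10 * (14 / 25) ^ 2 + 7 / 12 * (14 / 25) ^ 3))
  refine (b.hasDerivWithinAt.congr_deriv ?_).congr (fun y hy => ?_) ?_
  · rw [sl, dn h]
    norm_num
  · rw [ph, dn hy]
  · rw [ph, dn h]

lemma der (t : ℝ) : HasDerivAt ph (sl t) t := by
  rcases lt_trichotomy t (11 / 25) with h | h | h
  · exact (dQ t h.le).hasDerivAt (Iic_mem_nhds h)
  · have := (dQ t h.le).union (dP t h.ge)
    rwa [Iic_union_Ici, hasDerivWithinAt_univ] at this
  · exact (dP t h.le).hasDerivAt (Ici_mem_nhds h)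

lemma bd {t : ℝ} (h : t ≤ 1) : 0 ≤ mu t ∧ mu t ≤ 14 / 25 ∧ mu t ≤ 1 - t :=
  ⟨le_min (by linarith) (by norm_num), min_le_right _ _, min_le_left _ _⟩

end RPR

theorem sPR : SPR := by
  refine ⟨RPR.der, ?_, fun t h => ?_, 3, by norm_num, fun a b ha hb => ?_⟩
  · rw [ph, RPR.up (by norm_num)]
    norm_num
  · obtain ⟨h1, -, h3⟩ := RPR.bd h
    have h4 := pow_nonneg h1 2
    have h5 := pow_nonneg h1 3
    rw [ph]
    linarith
  · have := (convex_Icc (-1 : ℝ) 1).norm_image_sub_le_of_norm_hasDerivWithin_le (C := 3)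
      (fun x _ => (RPR.der x).hasDerivWithinAt) (fun x hx => by
        obtain ⟨h1, h2, -⟩ := RPR.bd hx.2
        rw [Real.norm_eq_abs, abs_le, sl]
        constructor <;> nlinarith) (abs_le.1 hb) (abs_le.1 ha)
    exact (le_abs_self _).trans this

end Pool.Agent.MP_3ee8cb_gt.D8
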