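import Pool.Agent.MP_3ee8cb_gt.D8.Top
import Pool.Agent.MP_3ee8cb_gt.D8.RMOM
import Pool.Agent.MP_3ee8cb_gt.D8.RNUM1h
import Pool.Agent.MP_3ee8cb_gt.D8.RNUM2
import Pool.Agent.MP_3ee8cb_gt.D8.RPR
import Pool.Agent.MP_3ee8cb_gt.DRB.Final

/-! Rigidity under quarter pinching in dimension eight. -/

namespace Pool.Agent.MP_3ee8cb_gt.D8

open DN (Dim dm)
open Real

variable [Dim]

theorem main8 (h : dm = 8) : SLN.MainZ ((1 + 1001 / 1000) ^ 2 - 1) := by
  have d : (dm : ℝ) = 8 := by exact_mod_cast h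
  have l : log (381 / 100) < 67 / 50 := by
    rw [log_lt_iff_lt_exp (by norm_num)]
    refine lt_of_lt_of_le ?_ (sum_le_exp_of_nonneg (by norm_num) 7)
    norm_num [Finset.sum_range_succ, Nat.factorial]
  refine main_of (R₀ := log (381 / 100) / 2) sPR (by norm_num) (by norm_num) (by linarith)
    (by unfold qq; fun_prop) (by norm_num) ?_ (by linarith) sNUM1h sNUM2 (sMOM DZ.sMS h)
  rw [mul_div_cancel₀ _ two_ne_zero, exp_log (by norm_num)]

theorem main : SLN.MainZ ((1 + if dm = 8 then 1001 / 1000 else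
    max (36 / (5 * (dm : ℝ))) (129 / (100 * √(dm : ℝ)))) ^ 2 - 1) := by
  split_ifs with h
  exacts [main8 h, DRB.final]

end Pool.Agent.MP_3ee8cb_gt.D8
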