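import Pool.Agent.MP_3ee8cb_gt.D8.Spec

/-! The maximum is attained; the support function is Lipschitz in the base point. -/

namespace Pool.Agent.MP_3ee8cb_gt.D8

open DN (Dim dm)

variable [Dim]

open Set Filter Topology Real DN DZ
open DQ (BH)
open scoped RealInnerProductSpace

namespace BSx

variable {m : MF} {lg : V × V → V} {dX : V → V → ℝ} {P : Type} [TopologicalSpace P] {A : Fam P}
  {φ : ℝ → ℝ}

theorem cg (F : BF m lg dX A) (H : BH A) (hφ : Continuous φ) :
    Continuous fun r : (V × V) × P => gp φ (A.β r.2) (A.ν r.2) (r.1.1, r.1.2) := by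
  have c : Continuous fun r : (V × V) × P => (r.2, r.1.1) :=
    continuous_snd.prodMk continuous_fst.fst
  exact (F.cont.comp c).add (hφ.comp ((H.cn.comp c).inner continuous_fst.snd))

theorem half (hb : BF m lg dX A) (hh : BH A) (hs : BS A φ) (x x' z w : V) (hw : ‖w‖ = 1) {d : ℝ}
    (hd : ∀ p p' k, A.pr p = x → A.pr p' = x' → (∀ z, A.β p' z = A.β p z + k) → |k| ≤ d) :
    up A φ x z w - up A φ x' z w ≤ d := by
  obtain ⟨p, hp, e, -⟩ := hs.max x z w hw
  obtain ⟨q, -, e', hq⟩ := hs.max x' z w hw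
  obtain ⟨p', k, hp', hk⟩ := hb.mov p x'
  have h1 := hq p' hp'
  have sh : gp φ (A.β p') (A.ν p') (z, w) = gp φ (A.β p) (A.ν p) (z, w) + k := by
    rw [gp, gp, hk, hh.nu p p' k hk]
    ring
  rw [sh] at h1
  have := abs_le.1 (hd p p' k hp hp' hk)
  rw [e, e']
  linarith [this.1]

end BSx

theorem sBS : SBS := by
  intro m lg dX P _ A F G H φ hφ
  refine ⟨fun x z w hw => ?_, fun x => ?_⟩
  · obtain ⟨p₀, h₀, -⟩ := G.onto x z w hw
    have c : Continuous fun p => gp φ (A.β p) (A.ν p) (z, w) :=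
      (BSx.cg F H hφ).comp ((continuous_const (y := (z, w))).prodMk continuous_id)
    obtain ⟨p, hp, hm⟩ := (F.cpt x).exists_isMaxOn ⟨p₀, h₀⟩ c.continuousOn
    refine ⟨p, hp, IsGreatest.csSup_eq ⟨⟨p, hp, rfl⟩, ?_⟩, fun p' h' => hm h'⟩
    rintro _ ⟨p', h', rfl⟩
    exact hm h'
  · exact ((F.cpt x).continuous_sSup
      (f := fun (q : V × V) p => gp φ (A.β p) (A.ν p) (q.1, q.2)) (BSx.cg F H hφ)).continuousOn

theorem sLX : SLX := by
  intro m lg dX P _ A hb _ hh φ hs x x' z w hw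
  have h1 := BSx.half hb hh hs x x' z w hw (d := dX x x') fun p p' k hp hp' hk => by
    rw [← hp, ← hp']
    exact hb.lip p p' k hk
  have h2 := BSx.half hb hh hs x' x z w hw (d := dX x x') fun p p' k hp hp' hk => by
    have := hb.lip p' p (-k) fun z => by rw [hk]; ring
    rwa [abs_neg, hp, hp'] at this
  exact abs_le.2 ⟨by linarith, h1⟩

end Pool.Agent.MP_3ee8cb_gt.D8
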