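import Pool.Agent.MP_3ee8cb_gt.D8.Spec
import Pool.Agent.MP_3ee8cb_gt.DRB.RINW

/-! The averaged field points inwards outside a bounded set (free profile). -/

namespace Pool.Agent.MP_3ee8cb_gt.D8

open Set Filter Topology MeasureTheory Real
open scoped RealInnerProductSpace
open DN (Dim dm)

variable [Dim]

open DN DZ
open DQ (BH)

namespace INWx

variable {m : MF} {lg : V × V → V} {dX : V → V → ℝ} {P : Type} [TopologicalSpace P] {A : Fam P}
  {φ q : ℝ → ℝ} {k R : ℝ}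

theorem half (bf : BF m lg dX A) (bh : BH A) (bs : BS A φ) (hk : k ≤ exp (2 * R))
    (n2 : Nu2 φ k q) {p : P} {z w : V} (hp : R < A.β p z) (hw : ‖w‖ = 1)
    (hx : 0 < ⟪w, A.ν p z⟫) {w' : V} (e : w' = w - (2 * ⟪w, A.ν p z⟫) • A.ν p z)
    (hw' : ‖w'‖ = 1) :
    q ⟪w, A.ν p z⟫ ≤ up A φ (A.pr p) z w - up A φ (A.pr p) z w' := by
  obtain ⟨u, -, q3, q4⟩ := bs.max (A.pr p) z w hw
  obtain ⟨r, r1, r3, -⟩ := bs.max (A.pr p) z w' hw'
  have n1 := (bf.isb p).unit z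
  have n2' := (bf.isb r).unit z
  have x1 := real_inner_le_norm w (A.ν p z)
  have s1 := abs_real_inner_le_norm (A.ν p z) (A.ν r z)
  rw [hw, n1, mul_one] at x1
  rw [n1, n2', mul_one] at s1
  have a1 := q4 p rfl
  have a2 := bh.gr2 p r z r1.symm
  have a3 := q4 r r1
  have e1 : ⟪A.ν r z, w'⟫ = ⟪A.ν r z, w⟫ - ⟪A.ν p z, A.ν r z⟫ * ⟪w, A.ν p z⟫ -
      ⟪A.ν p z, A.ν r z⟫ * ⟪w, A.ν p z⟫ := by
    rw [e, inner_sub_right, real_inner_smul_right, real_inner_comm (A.ν p z) (A.ν r z)]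
    ring
  have s0 : 0 ≤ 1 - ⟪A.ν p z, A.ν r z⟫ := sub_nonneg.2 (abs_le.1 s1).2
  have g : k * (1 - ⟪A.ν p z, A.ν r z⟫) ≤ 2 * exp (R - A.β r z) := by
    have e2 : exp (2 * R) ≤ exp (R - A.β r z) * (exp (A.β p z) * exp (A.β r z)) := by
      rw [← exp_add, ← exp_add]
      exact exp_le_exp.2 (by linarith)
    have := mul_le_mul_of_nonneg_right (hk.trans e2) s0
    have := mul_le_mul_of_nonneg_left a2 (exp_pos (R - A.β r z)).le
    linarith
  have key := n2 _ _ _ _ hx x1 ((sq_le_one_iff_abs_le_one _).2 s1)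
    (DRB.INWx.perp n1 hw n2') g
  rw [q3, r3]
  simp only [gp] at a1 a3 ⊢
  rw [e1]
  rw [real_inner_comm w] at a1
  rw [sub_add_cancel] at key
  rcases le_max_iff.1 key with h | h <;> linarith

end INWx

open INWx

theorem sINW : SINW := by
  intro m lg dX P _ A bf bg bh ms ct φ k q R bs cq k0 k1 n2 n3 x
  have rt := ms.rot'
  have := ms.fin
  obtain ⟨u, q1, -⟩ := bg.onto x 0 (EuclideanSpace.single 0 1) (by simp)
  obtain ⟨y, hy⟩ := ct x
  have yC : y ∈ A.C R x := fun p hp => by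
    have h := ((hy p hp).trans k0).trans k1
    rw [← exp_nat_mul, exp_le_exp] at h
    push_cast at h
    linarith
  refine ⟨y, R + 1 + (R + 1), fun z hz => (bf.yw.had.tri y (A.ft u) z).trans ?_,
    fun z hz => ?_⟩
  · refine add_le_add ?_ (bg.near u z _ (q1 ▸ hz))
    rw [bf.yw.had.rev, norm_neg, bf.yw.jac.norm]
    exact bg.near u y _ (q1 ▸ yC)
  obtain ⟨p, p1, p2⟩ : ∃ p, A.pr p = x ∧ R < A.β p z := by
    by_contra k
    exact hz fun p hp => not_lt.1 fun h => k ⟨p, hp, h⟩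
  refine ⟨A.ν p z, ?_, DQ.INWx.back bf ((yC p p1).trans_lt p2)⟩
  subst p1
  have n1 := (bf.isb p).unit z
  obtain ⟨O, hO⟩ : ∃ O : V ≃ₗᵢ[ℝ] V, ∀ w, O w = w - (2 * ⟪w, A.ν p z⟫) • A.ν p z :=
    ⟨(ℝ ∙ A.ν p z)ᗮ.reflection, fun w => by
      rw [Submodule.reflection_orthogonal_apply, Submodule.reflection_singleton_apply, n1,
        real_inner_comm]
      simp only [RCLike.ofReal_real_eq_id, id_eq, one_pow, div_one, two_nsmul]
      module⟩
  have o1 : ∀ w, ⟪O w, A.ν p z⟫ = -⟪w, A.ν p z⟫ := fun w => by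
    rw [hO, inner_sub_left, real_inner_smul_left, real_inner_self_eq_norm_sq, n1]
    ring
  have o2 : ∀ w, w = O w - (2 * ⟪O w, A.ν p z⟫) • A.ν p z := fun w => by
    rw [o1, hO]
    module
  have both : ∀ w : V, ‖w‖ = 1 → q |⟪w, A.ν p z⟫| * |⟪w, A.ν p z⟫| ≤
      up A φ (A.pr p) z w * ⟪w, A.ν p z⟫ - up A φ (A.pr p) z (O w) * ⟪w, A.ν p z⟫ :=
    fun w hw => by
      have hw' : ‖O w‖ = 1 := by rw [O.norm_map, hw]
      rcases lt_trichotomy 0 ⟪w, A.ν p z⟫ with h | h | h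
      · have := mul_le_mul_of_nonneg_right (half bf bh bs k1 n2 p2 hw h (hO w) hw') h.le
        rw [abs_of_pos h]
        linarith
      · rw [← h]
        simp
      · have k : 0 < ⟪O w, A.ν p z⟫ := by rw [o1]; linarith
        have := mul_le_mul_of_nonneg_right (half bf bh bs k1 n2 p2 hw' k (o2 w) hw) k.le
        rw [o1] at this
        rw [abs_of_neg h]
        linarith
  have oe : O (A.ν p z) = -A.ν p z := by
    rw [hO, real_inner_self_eq_norm_sq, n1]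
    module
  obtain ⟨a1, a2⟩ := DZZ.av_inner rt (bs.cu (A.pr p)) z (A.ν p z) (.refl ℝ V)
  obtain ⟨b1, b2⟩ := DZZ.av_inner rt (bs.cu (A.pr p)) z (A.ν p z) O
  simp only [LinearIsometryEquiv.coe_refl, id_eq] at a1 a2
  rw [oe, inner_neg_right] at b2
  have i1 := rt.int (f := fun w => q |⟪w, A.ν p z⟫| * |⟪w, A.ν p z⟫|) (by fun_prop)
  have c := integral_mono_ae i1 (a1.sub b1) (rt.ne.mono fun w hw => both _ (DZZ.nrm hw))
  simp only [Pi.sub_apply] at c
  rw [integral_sub a1 b1, ← a2, ← b2] at c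
  have d := n3 _ n1
  change 0 < ⟪DZZ.av mS (fun q : V × V => up A φ (A.pr p) q.1 q.2) z, A.ν p z⟫
  simp only [un] at d
  linarith

end Pool.Agent.MP_3ee8cb_gt.D8
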