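import Pool.Agent.MP_3ee8cb_gt.D8.Spec
import Pool.Agent.MP_3ee8cb_gt.DQ.RLZ

/-! The support function is Lipschitz in the point and in the direction. -/

namespace Pool.Agent.MP_3ee8cb_gt.D8

open DN (Dim dm)

variable [Dim]

open Set Filter Topology Real DN DZ Metric DQ.LZx
open scoped RealInnerProductSpace

theorem sLZ : SLZ := by
  intro m lg dX P _ A hb g _ φ s h pr hh h0 H x₀ R
  obtain ⟨K, K0, hK⟩ := lips hb h0 H R
  obtain ⟨L, L0, hL⟩ := pr.lip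
  refine ⟨_, fun x _ => LipschitzOnWith.of_le_add_mul' (K + L * (K + 1)) fun q hq q' hq' => ?_⟩
  obtain ⟨p, e, e1, -⟩ := hh.max x q.1 q.2 hq.2
  obtain ⟨p', -, e2, m2⟩ := hh.max x q'.1 q'.2 hq'.2
  rw [e1, e2]
  refine le_trans ?_ (add_le_add_left (m2 p e) _)
  have d1 : ‖q.1 - q'.1‖ ≤ dist q q' := by
    rw [← dist_eq_norm, Prod.dist_eq]
    exact le_max_left _ _
  have d2 : ‖q.2 - q'.2‖ ≤ dist q q' := by
    rw [← dist_eq_norm, Prod.dist_eq]
    exact le_max_right _ _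
  obtain ⟨k1, k2⟩ := hK p q.1 q'.1 hq.1 hq'.1
  have k3 := mul_le_mul_of_nonneg_left d1 K0
  have i1 := abs_real_inner_le_norm (A.ν p q.1) q.2
  have i1' := abs_real_inner_le_norm (A.ν p q'.1) q'.2
  have i2 := abs_real_inner_le_norm (A.ν p q.1 - A.ν p q'.1) q.2
  have i3 := abs_real_inner_le_norm (A.ν p q'.1) (q.2 - q'.2)
  rw [(hb.isb p).unit, hq.2, mul_one] at i1
  rw [(hb.isb p).unit, hq'.2, mul_one] at i1'
  rw [inner_sub_left, hq.2, mul_one] at i2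
  rw [inner_sub_right, (hb.isb p).unit, one_mul] at i3
  have i4 := abs_sub_le ⟪A.ν p q.1, q.2⟫ ⟪A.ν p q'.1, q.2⟫ ⟪A.ν p q'.1, q'.2⟫
  have j1 := (hL _ _ i1 i1').trans (mul_le_mul_of_nonneg_left
    (show _ ≤ (K + 1) * dist q q' by linarith) L0)
  have j2 := le_of_abs_le (k1.trans k3)
  simp only [gp]
  linarith

end Pool.Agent.MP_3ee8cb_gt.D8
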