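import Pool.Agent.MP_3ee8cb_gt.D8.Spec

/-! The tangential inequality for the profile. -/

namespace Pool.Agent.MP_3ee8cb_gt.D8

namespace N1x

noncomputable def sB (v : ℝ) : ℝ := 93 / 100 + 7 / 5 * v + 7 / 4 * v ^ 2

noncomputable def pp (s v : ℝ) : ℝ := s - 2 * (1 - v) * (1 - (1 - v) * s) - 357 / 625

noncomputable def rr (s v : ℝ) : ℝ :=
  357 / 625 * (s * (2 - v) - 1) - (1 - (1 - v) * s) ^ 2 * (2 - v)

theorem pA {v : ℝ} (h0 : 14 / 25 ≤ v) (h1 : v ≤ 39 / 50) :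
    0 ≤ 4 * (v * rr (5657 / 2500) v) - pp (5657 / 2500) v ^ 2 := by
  have a := sub_nonneg.2 h0
  have b := sub_nonneg.2 h1
  have : 4 * (v * rr (5657 / 2500) v) - pp (5657 / 2500) v ^ 2 =
      160368143 / 189062500 * (v - 14 / 25) ^ 0 * (39 / 50 - v) ^ 2 +
      3981603759 / 94531250 * (v - 14 / 25) ^ 1 * (39 / 50 - v) ^ 1 +
      58440317 / 189062500 * (v - 14 / 25) ^ 2 * (39 / 50 - v) ^ 0 := by
    simp only [sB, pp, rr]
    ring
  rw [this]
  positivity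

theorem pB {v : ℝ} (h0 : 3 / 25 ≤ v) (h1 : v ≤ 14 / 25) :
    0 ≤ 4 * (v * rr (sB v) v) - pp (sB v) v ^ 2 := by
  have a := sub_nonneg.2 h0
  have b := sub_nonneg.2 h1
  have : 4 * (v * rr (sB v) v) - pp (sB v) v ^ 2 =
      5382287 / 1771561 * (v - 3 / 25) ^ 0 * (14 / 25 - v) ^ 6 +
      67111791 / 1771561 * (v - 3 / 25) ^ 1 * (14 / 25 - v) ^ 5 +
      639504405 / 7086244 * (v - 3 / 25) ^ 2 * (14 / 25 - v) ^ 4 +
      507845145 / 7086244 * (v - 3 / 25) ^ 3 * (14 / 25 - v) ^ 3 +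
      1613155955 / 28344976 * (v - 3 / 25) ^ 4 * (14 / 25 - v) ^ 2 +
      1003470493 / 14172488 * (v - 3 / 25) ^ 5 * (14 / 25 - v) ^ 1 +
      160368143 / 28344976 * (v - 3 / 25) ^ 6 * (14 / 25 - v) ^ 0 := by
    simp only [sB, pp, rr]
    ring
  rw [this]
  positivity

theorem pC {v : ℝ} (h0 : 0 ≤ v) (h1 : v ≤ 3 / 25) :
    0 ≤ pp (sB v) v - 2 * (v * (sB v * (2 - v))) := by
  have a := sub_nonneg.2 h0
  have b := sub_nonneg.2 h1
  have : pp (sB v) v - 2 * (v * (sB v * (2 - v))) =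
      341875 / 324 * (v - 0) ^ 0 * (3 / 25 - v) ^ 4 +
      283750 / 81 * (v - 0) ^ 1 * (3 / 25 - v) ^ 3 +
      434525 / 108 * (v - 0) ^ 2 * (3 / 25 - v) ^ 2 +
      273485 / 162 * (v - 0) ^ 3 * (3 / 25 - v) ^ 1 + 9697 / 81 * (v - 0) ^ 4 * (3 / 25 - v) ^ 0 := by
    simp only [sB, pp, rr]
    ring
  rw [this]
  positivity

theorem pD {v : ℝ} (h0 : 0 ≤ v) (h1 : v ≤ 3 / 25) :
    0 ≤ rr (sB v) v - sB v * (2 - v) * (pp (sB v) v - v * (sB v * (2 - v))) := by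
  have a := sub_nonneg.2 h0
  have b := sub_nonneg.2 h1
  have : rr (sB v) v - sB v * (2 - v) * (pp (sB v) v - v * (sB v * (2 - v))) =
      908984375 / 4374 * (v - 0) ^ 0 * (3 / 25 - v) ^ 7 +
      11677796875 / 8748 * (v - 0) ^ 1 * (3 / 25 - v) ^ 6 +
      2652784375 / 729 * (v - 0) ^ 2 * (3 / 25 - v) ^ 5 +
      12007411250 / 2187 * (v - 0) ^ 3 * (3 / 25 - v) ^ 4 +
      10937333375 / 2187 * (v - 0) ^ 4 * (3 / 25 - v) ^ 3 +
      4069483325 / 1458 * (v - 0) ^ 5 * (3 / 25 - v) ^ 2 +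
      1969043410 / 2187 * (v - 0) ^ 6 * (3 / 25 - v) ^ 1 +
      288163432 / 2187 * (v - 0) ^ 7 * (3 / 25 - v) ^ 0 := by
    simp only [sB, pp, rr]
    ring
  rw [this]
  positivity

theorem form (s v x : ℝ) (h : s * x * pp s v - (s * x) ^ 2 ≤ v * rr s v) :
    s ^ 2 * (1 * x) + (1 - (1 - v) * s) ^ 2 - (s * x + (1 - (1 - v) * s) * (1 - v)) ^ 2 ≤
      357 / 625 * ((1 - (1 - v)) * (s * (1 + (1 - v)) - 1) + s * x) := by
  have : 357 / 625 * ((1 - (1 - v)) * (s * (1 + (1 - v)) - 1) + s * x) -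
      (s ^ 2 * (1 * x) + (1 - (1 - v) * s) ^ 2 - (s * x + (1 - (1 - v) * s) * (1 - v)) ^ 2) =
      v * rr s v - (s * x * pp s v - (s * x) ^ 2) := by
    simp only [pp, rr]
    ring
  linarith

end N1x

open N1x in
theorem sNUM1 : SNUM1 := by
  intro t x hp t0 t1 x0 x1
  obtain ⟨v, rfl⟩ : ∃ v, t = 1 - v := ⟨1 - t, by ring⟩
  have v0 : 0 ≤ v := by linarith
  rcases le_total v (14 / 25) with h | h
  · have m : mu (1 - v) = v := by
      rw [mu, sub_sub_cancel, min_eq_left h]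
    have s : sl (1 - v) = sB v := by rw [sl, m, sB]
    have s0 : 93 / 100 ≤ sB v := by
      rw [sB]
      nlinarith [sq_nonneg v]
    rw [s]
    refine ⟨by nlinarith, form _ _ _ ?_⟩
    rcases le_total v (3 / 25) with k | k
    · have c := pC v0 k
      have d := mul_nonneg v0 (pD v0 k)
      have y1 : sB v * x ≤ v * (sB v * (2 - v)) := by
        have := mul_le_mul_of_nonneg_left x1 (by linarith : 0 ≤ sB v)
        linarith
      have := mul_nonneg (sub_nonneg.2 y1)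
        (by linarith : 0 ≤ pp (sB v) v - v * (sB v * (2 - v)) - sB v * x)
      nlinarith
    · nlinarith [pB k h, sq_nonneg (2 * (sB v * x) - pp (sB v) v)]
  · have m : mu (1 - v) = 14 / 25 := by
      rw [mu, sub_sub_cancel, min_eq_right h]
    have s : sl (1 - v) = 5657 / 2500 := by
      rw [sl, m]
      norm_num
    rw [ph, m] at hp
    have k : v ≤ 39 / 50 := by linarith
    rw [s]
    refine ⟨by linarith, form _ _ _ ?_⟩
    nlinarith [pA h k, sq_nonneg (2 * (5657 / 2500 * x) - pp (5657 / 2500) v)]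

end Pool.Agent.MP_3ee8cb_gt.D8
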