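import Pool.Agent.MP_3ee8cb_gt.D8.Spec
import Pool.Agent.MP_3ee8cb_gt.DQ.RTOU

/-! The support function of a profile is touched from below by the function of a maximiser. -/

namespace Pool.Agent.MP_3ee8cb_gt.D8

open Set Filter Topology Real
open scoped RealInnerProductSpace
open DN (Dim dm)

variable [Dim]

open DN DZ

namespace TOUx

theorem der (m : MF) (φ : ℝ → ℝ) (s : ℝ) (b : V → ℝ) (ν : V → V) (z w : V) (E D : V →L[ℝ] V)
    (hk : ∀ u a c, ⟪m.om z u a, c⟫ = -⟪a, m.om z u c⟫) (hs : ∀ a c, ⟪E a, c⟫ = ⟪a, E c⟫)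
    (hb : HasFDerivAt b (-(innerSL ℝ (ν z)).comp (m.S z)) z) (hD : HasFDerivAt ν D z)
    (hE : ∀ u, D u + m.om z u (ν z) = -(m.S z u - ⟪ν z, m.S z u⟫ • ν z + E (m.S z u)))
    (hφ : HasDerivAt φ s ⟪ν z, w⟫) : ∃ L : V × V →L[ℝ] ℝ,
    HasFDerivAt (gp φ b ν) L (z, w) ∧ ∀ ξ, m.ver (z, w) ξ = 0 →
      L ξ = -⟪s • (w + E w) + (1 - ⟪ν z, w⟫ * s) • ν z, m.hor (z, w) ξ⟫ := by
  have f1 : HasFDerivAt (fun q : V × V => q.1) (ContinuousLinearMap.fst ℝ V V) (z, w) :=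
    hasFDerivAt_fst
  have f2 : HasFDerivAt (fun q : V × V => q.2) (ContinuousLinearMap.snd ℝ V V) (z, w) :=
    hasFDerivAt_snd
  have b1 := HasFDerivAt.comp (z, w) (g := b) hb f1
  have n1 := (HasFDerivAt.comp (z, w) (g := ν) hD f1).inner ℝ f2
  have n2 := HasDerivAt.comp_hasFDerivAt (h₂ := φ) (z, w) hφ n1
  have g1 := b1.add n2
  refine ⟨_, g1, fun ξ hξ => ?_⟩
  have e2 : ξ.2 = -m.om z ξ.1 w := by
    have : ξ.2 + m.om z ξ.1 w = 0 := by simpa [MF.ver] using hξ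
    exact eq_neg_of_add_eq_zero_left this
  have e1 : D ξ.1 = -(m.S z ξ.1 - ⟪ν z, m.S z ξ.1⟫ • ν z + E (m.S z ξ.1)) - m.om z ξ.1 (ν z) :=
    eq_sub_of_add_eq (hE ξ.1)
  have e3 : ⟪ν z, ξ.2⟫ + ⟪D ξ.1, w⟫ = ⟪ν z, m.S z ξ.1⟫ * ⟪ν z, w⟫ - ⟪w + E w, m.S z ξ.1⟫ := by
    rw [e1, e2, inner_neg_right, inner_sub_left, inner_neg_left, inner_add_left, inner_sub_left,
      real_inner_smul_left, hk, hs, inner_add_left, real_inner_comm (m.S z ξ.1) w,
      real_inner_comm (m.S z ξ.1) (E w)]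
    ring
  have e4 : m.hor (z, w) ξ = m.S z ξ.1 := rfl
  rw [e4, inner_add_left, real_inner_smul_left, real_inner_smul_left]
  simp only [smul_apply, add_apply,
    ContinuousLinearMap.comp_apply, ContinuousLinearMap.prod_apply, fderivInnerCLM_apply,
    ContinuousLinearMap.coe_fst', ContinuousLinearMap.coe_snd', Function.comp_apply,
    neg_apply, innerSL_apply_apply, smul_eq_mul]
  rw [e3]
  ring

end TOUx

theorem sTOU : STOU := by
  intro m lg dX P _ A hF hG _ φ sf h ε R hP hH h0 hN hS x z w hz w1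
  obtain ⟨p, hp, hu, hmax⟩ := hH.max x z w w1
  obtain ⟨E, hs, hn, hb, D, hD, hE⟩ := hS p z
  have n1 : ‖A.ν p z‖ = 1 := (hF.isb p).unit z
  have t1 : |⟪A.ν p z, w⟫| ≤ 1 := by
    have := abs_real_inner_le_norm (A.ν p z) w
    rwa [n1, w1, mul_one] at this
  obtain ⟨tm, tp⟩ := abs_le.1 t1
  have ww : ⟪w, w⟫ = 1 := by rw [real_inner_self_eq_norm_sq, w1, one_pow]
  have tF : -(2 * R) ≤ φ ⟪A.ν p z, w⟫ := by
    obtain ⟨p', hp', hw'⟩ := hG.onto x z w w1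
    have a1 : A.β p' z + φ ⟪A.ν p' z, w⟫ ≤ A.β p z + φ ⟪A.ν p z, w⟫ := hmax p' hp'
    rw [hw', ww, hP.one] at a1
    have a2 := hG.opp p' z
    have a3 : A.β (A.fl p') z ≤ R := hz _ ((hF.flp p').1.trans hp')
    have a4 : A.β p z ≤ R := hz p hp
    linarith
  obtain ⟨L, hL, hLe⟩ := TOUx.der m φ (sf ⟪A.ν p z, w⟫) (A.β p) (A.ν p) z w E D
    (hF.yw.ok.skew z) hs ((hF.b1 p).der z) hD hE (hP.der _)
  have x0 := (hb w).1
  have x1 := DQ.TOUx.form_le E h (A.ν p z) w hs hn hb n1 w1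
  have x2 := DQ.TOUx.sq_le E h h0 hs hb w
  obtain ⟨x4, x3⟩ := hN _ _ tF tm tp x0 x1
  have k0 : ⟪E w, A.ν p z⟫ = 0 := by rw [hs, hn, inner_zero_right]
  have k1 : ∀ a c : ℝ, ‖a • E w + c • A.ν p z‖ ^ 2 = a ^ 2 * ‖E w‖ ^ 2 + c ^ 2 := fun a c => by
    rw [norm_add_sq_real, real_inner_smul_right, real_inner_smul_left, k0, norm_smul, norm_smul,
      n1, Real.norm_eq_abs, Real.norm_eq_abs, mul_one, mul_pow, sq_abs, sq_abs]
    ring
  have k2 : ∀ a c : ℝ, ⟪a • E w + c • A.ν p z, w⟫ = a * ⟪E w, w⟫ + c * ⟪A.ν p z, w⟫ :=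
    fun a c => by rw [inner_add_left, real_inner_smul_left, real_inner_smul_left]
  generalize hx : ⟪E w, w⟫ = y at x0 x1 x2 x3 k2
  generalize hT : ⟪A.ν p z, w⟫ = t at tm tp hLe x1 x3 x4 k2
  generalize sf t = s at hLe x3 x4
  have s0 : 0 < s := by
    by_contra hn
    have := mul_nonneg (neg_nonneg.2 (not_lt.1 hn)) (show 0 ≤ 1 + t by linarith)
    linarith
  have c1 := mul_nonneg (sub_nonneg.2 tp) (sub_pos.2 x4).le
  have c2 := mul_nonneg s0.le x0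
  refine ⟨gp φ (A.β p) (A.ν p), L, s + (s * y + (1 - t * s) * t),
    s • E w + (1 - t * s) • A.ν p z - (s * y + (1 - t * s) * t) • w, hL, hu.symm,
    ?_, ?_, ?_, ?_, ?_, ?_⟩
  · refine Eventually.of_forall fun q q1 => ?_
    obtain ⟨r, -, hr, hm⟩ := hH.max x q.1 q.2 q1
    exact (hm p hp).trans_eq hr.symm
  · nlinarith
  · change ⟪s • E w + (1 - t * s) • A.ν p z - (s * y + (1 - t * s) * t) • w, w⟫ = 0
    rw [inner_sub_left, real_inner_smul_left, k2, ww, mul_one, sub_self]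
  · have e1 : ‖s • E w + (1 - t * s) • A.ν p z - (s * y + (1 - t * s) * t) • w‖ ^ 2 =
        s ^ 2 * ‖E w‖ ^ 2 + (1 - t * s) ^ 2 - (s * y + (1 - t * s) * t) ^ 2 := by
      rw [norm_sub_sq_real, real_inner_smul_right, k1, k2, norm_smul, w1, Real.norm_eq_abs,
        mul_one, sq_abs]
      ring
    have e2 : s + (s * y + (1 - t * s) * t) - 1 = (1 - t) * (s * (1 + t) - 1) + s * y := by ring
    have e3 := mul_le_mul_of_nonneg_left x2 (sq_nonneg s)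
    rw [e1, e2]
    linarith
  · intro hc
    have e0 : t = 1 := by
      by_contra hne
      have := mul_pos (sub_pos.2 (lt_of_le_of_ne tp hne)) (sub_pos.2 x4)
      nlinarith
    exact ⟨p, hp, (inner_eq_one_iff_of_norm_eq_one n1 w1).1 (hT.trans e0), hmax⟩
  · intro ξ hξ
    have e1 : (s + (s * y + (1 - t * s) * t)) • w +
        (s • E w + (1 - t * s) • A.ν p z - (s * y + (1 - t * s) * t) • w) =
        s • (w + E w) + (1 - t * s) • A.ν p z := by module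
    change L ξ = -⟪(s + (s * y + (1 - t * s) * t)) • w +
      (s • E w + (1 - t * s) • A.ν p z - (s * y + (1 - t * s) * t) • w), m.hor (z, w) ξ⟫
    rw [e1]
    exact hLe ξ hξ

end Pool.Agent.MP_3ee8cb_gt.D8
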