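import Pool.Agent.MP_3ee8cb_gt.DRB.Spec

/-! Rigidity with a free profile: definitions and statements of the blocks. -/

namespace Pool.Agent.MP_3ee8cb_gt.D8

open Set Filter Topology MeasureTheory Real
open scoped RealInnerProductSpace

noncomputable section

/-! ### Scalar statements -/

/-- A profile `φ` with derivative `s`. -/
structure Pr (φ s : ℝ → ℝ) : Prop where
  der : ∀ t, HasDerivAt φ (s t) t
  one : φ 1 = 0
  le : ∀ t, t ≤ 1 → φ t ≤ 0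
  lip : ∃ K, 0 ≤ K ∧ ∀ a b, |a| ≤ 1 → |b| ≤ 1 → φ a - φ b ≤ K * |a - b|

/-- The inequality behind the bound on the tangential part. -/
def Nu1 (φ s : ℝ → ℝ) (h e R : ℝ) : Prop := ∀ t x : ℝ, -(2 * R) ≤ φ t → -1 ≤ t → t ≤ 1 →
  0 ≤ x → x ≤ h * (1 - t ^ 2) → 1 < s t * (1 + t) ∧
    s t ^ 2 * (h * x) + (1 - t * s t) ^ 2 - (s t * x + (1 - t * s t) * t) ^ 2 ≤
      e * ((1 - t) * (s t * (1 + t) - 1) + s t * x)

/-- The inequality behind the inward direction. -/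
def Nu2 (φ : ℝ → ℝ) (k : ℝ) (q : ℝ → ℝ) : Prop := ∀ x S B G : ℝ, 0 < x → x ≤ 1 → S ^ 2 ≤ 1 →
  B ^ 2 ≤ (1 - S ^ 2) * (1 - x ^ 2) → k * (1 - S) ≤ 2 * exp G →
    q x + φ (B - S * x) ≤ max (G + φ x) (φ (B + S * x))

/-- The truncated distance to one. -/
def mu (t : ℝ) : ℝ := min (1 - t) (14 / 25)

/-- The profile. -/
def ph (t : ℝ) : ℝ := -(93 / 100 * mu t + 7 / 10 * mu t ^ 2 + 7 / 12 * mu t ^ 3) -
  5657 / 2500 * (1 - t - mu t)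

/-- Its derivative. -/
def sl (t : ℝ) : ℝ := 93 / 100 + 7 / 5 * mu t + 7 / 4 * mu t ^ 2

/-- The lower bound for the gain under the reflection. -/
def qq (x : ℝ) : ℝ := -(61 / 200) + 1 / 10 * x ^ 2 + 31 / 5 * x ^ 4 - 11 / 2 * x ^ 6

def SPR : Prop := Pr ph sl

def SNUM1 : Prop := Nu1 ph sl 1 (357 / 625) (67 / 100)

def SNUM2 : Prop := Nu2 ph (381 / 100) qq

open DN (Dim dm)

variable [Dim]

open DN DZ
open DQ (Hs BH OnH Tc Lz Inw Zq)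
open CR (Met UT)

/-! ### The support function -/

/-- The two point function. -/
def gp (φ : ℝ → ℝ) (b : V → ℝ) (ν : V → V) (q : V × V) : ℝ := b q.1 + φ ⟪ν q.1, q.2⟫

/-- The support function. -/
def up {P : Type} (A : Fam P) (φ : ℝ → ℝ) (x z w : V) : ℝ :=
  sSup ((fun p => gp φ (A.β p) (A.ν p) (z, w)) '' {p | A.pr p = x})

/-- The maximum is attained in the direction `w`. -/
def Tp {P : Type} (A : Fam P) (φ : ℝ → ℝ) (x z w : V) : Prop := ∃ p, A.pr p = x ∧ A.ν p z = w ∧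
  ∀ p', A.pr p' = x → gp φ (A.β p') (A.ν p') (z, w) ≤ gp φ (A.β p) (A.ν p) (z, w)

/-- The maximum is attained and depends continuously on the data. -/
structure BS {P : Type} (A : Fam P) (φ : ℝ → ℝ) : Prop where
  max : ∀ x z w, ‖w‖ = 1 → ∃ p, A.pr p = x ∧ up A φ x z w = gp φ (A.β p) (A.ν p) (z, w) ∧
    ∀ p', A.pr p' = x → gp φ (A.β p') (A.ν p') (z, w) ≤ gp φ (A.β p) (A.ν p) (z, w)
  cu : ∀ x, ContinuousOn (fun q : V × V => up A φ x q.1 q.2) {q | ‖q.2‖ = 1}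

def SBS : Prop := OnH fun _ _ _ _ _ A => ∀ φ, Continuous φ → BS A φ

def SLX : Prop := OnH fun _ _ dX _ _ A => ∀ φ, BS A φ →
  ∀ x x' z w, ‖w‖ = 1 → |up A φ x z w - up A φ x' z w| ≤ dX x x'

def SLZ : Prop := OnH fun m _ dX _ _ A => ∀ φ s h, Pr φ s → BS A φ → 0 ≤ h →
  (∀ p z, Hs m h (A.ν p) z) → Lz dX (up A φ)

def STOU : Prop := OnH fun m _ _ _ _ A => ∀ φ s h ε R, Pr φ s → BS A φ → 0 ≤ h →
  Nu1 φ s h (ε ^ 2) R → (∀ p z, Hs m h (A.ν p) z) → ∀ x z w, z ∈ A.C R x → ‖w‖ = 1 →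
    Tc m (fun q => up A φ x q.1 q.2) ε (Tp A φ x z w) (z, w)

/-- The integral inequality behind the inward direction. -/
def Nu3 (q : ℝ → ℝ) : Prop := ∀ e : V, ‖e‖ = 1 →
  0 < ∫ w, q |⟪un w, e⟫| * |⟪un w, e⟫| ∂mS

def SMOM : Prop := MS → dm = 8 → Nu3 qq

def SINW : Prop := OnH fun _ lg _ _ _ A => MS → DRB.Ctr A → ∀ φ (k : ℝ) q (R : ℝ), BS A φ →
  Continuous q → 5 / 2 ≤ k → k ≤ exp (2 * R) → Nu2 φ k q → Nu3 q → Inw lg (up A φ) (A.C R)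

def SEND1 : Prop := OnH fun _ _ _ _ _ A => MS → ∀ φ s, Pr φ s → BS A φ → ∀ x z,
  (∀ᵐ w ∂mS, Tp A φ x z (un w)) → ∀ p, A.pr p = x → A.ft p = z

def SEQV : Prop := On2 fun g h _ C' Γ Λ _ _ _ _ _ Ψ ρ F => ∀ m lg ν O φ R R₀ f, MS →
  NB h C' Ψ m lg ν → Act m Λ O → R₀ ≤ R →
  Zq lg (CR.dd g) (up (fam Ψ F ν) φ) ((fam Ψ F ν).C R) ((fam Ψ F ν).C R₀) f →
    ∀ (γ : Γ) x, f (γ • x) = ρ γ • f x

end

end Pool.Agent.MP_3ee8cb_gt.D8
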